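import Pool.Agent.Helper65.EV.St
import Pool.Agent.Helper84.Eve.Weak

set_option autoImplicit false

open MeasureTheory ProbabilityTheory Set Filter
open scoped ENNReal Topology

namespace Pool.Agent.Helper81.EV

open Pool.Agent.Helper65.EV Pool.Agent.Helper84.Eve

private lemma two_le_numPart {e : Ev} {i j M : ℕ} (hij : i ≠ j) (hi : i ≤ M) (hj : j ≤ M)
    (h1 : Part e i) (h2 : Part e j) : 2 ≤ numPart e M := by
  unfold numPart
  have h3 : ({i, j} : Set ℕ) ⊆ {k | k ≤ M ∧ Part e k} := by
    rintro k (rfl | rfl)
    · exact ⟨hi, h1⟩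
    · exact ⟨hj, h2⟩
  have h4 : ({i, j} : Set ℕ).ncard = 2 := Set.ncard_pair hij
  rw [← h4]
  exact Set.ncard_le_ncard h3 (fin_le M (Part e))

private lemma origin_of_part {e : Ev} {a j : ℕ} (ha : Part e a) (hmin : ∀ k, Part e k → a ≤ k)
    (hj : Part e j) : origin e j = a := by
  unfold origin
  rw [if_pos hj]
  apply le_antisymm
  · exact Nat.sInf_le ha
  · exact hmin _ (Nat.sInf_mem (⟨a, ha⟩ : {k | Part e k}.Nonempty))

private lemma aux {A : Set Ev} {x : ℝ → ℕ → ℝ} (hD : DynOK A x) (hA : GoodA A)
    (hinf : ∀ e ∈ A, {j | Part e j}.Infinite) {n m : ℕ} {h : ℝ} (hh : 0 ≤ h)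
    (hG : Good A n m h) (y : ℝ)
    (hu : ∀ t, 0 ≤ t → ∀ i j, x t i = y → x t j = y → i = j) :
    ∀ (k r a : ℕ), r + k = m → (∀ i < n, x (r * h) i = y ↔ i = a) →
      nrep (lsts A n h r k) a := by
  intro k
  induction k with
  | zero =>
    intro r a _ _
    trivial
  | succ k ih =>
    intro r a hr hc
    have hrm : r < m := by omega
    have hcell := hG r hrm
    set κ := kap A n (r * h) ((r + 1) * h) with hκ
    have hr0 : (0 : ℝ) ≤ r * h := by positivity
    have hstep : (r : ℝ) * h ≤ (r + 1) * h := by nlinarith
    have hnl : ¬ IsLeast (κ : Set ℕ) a := by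
      intro hl
      have hne : (A ∩ cellS n (r * h) ((r + 1) * h) {K | K.Nonempty}).Nonempty := by
        by_contra hcon
        have h0 : κ = ∅ := kap_empty hcon
        have h1 := hl.1
        rw [h0] at h1
        simp at h1
      obtain ⟨e, he, hes, het, hep⟩ := hne
      have hk : κ = pat n e := kap_eq hcell he hes het hep
      have hap : a ∈ pat n e := by
        have h1 := hl.1
        rw [hk] at h1
        exact_mod_cast h1
      obtain ⟨han, hPa⟩ := mem_pat.1 hap
      have hmin : ∀ k, Part e k → a ≤ k := by
        intro k hPk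
        rcases lt_or_ge k n with h1 | h1
        · apply hl.2
          rw [hk]
          exact_mod_cast mem_pat.2 ⟨h1, hPk⟩
        · omega
      obtain ⟨j, hPj, hja⟩ := (hinf e he).exists_notMem_finset {a}
      have hja' : j ≠ a := by simpa using hja
      have hPj' : Part e j := hPj
      set M := max j n with hM
      have haM : a ≤ M := by omega
      have hjM : j ≤ M := by omega
      have h2 : 2 ≤ numPart e M := two_le_numPart hja' hjM haM hPj' hPa
      have he0 : 0 < e.1 := lt_of_le_of_lt hr0 hes
      have hrel : e ∈ rel A e.1 M := ⟨he, he0, le_rfl, h2⟩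
      obtain ⟨s, hs0, hse, hsle, _, hx⟩ := before hD hA hrel (fun e' he' => he'.2.2.1)
      have h3 : x e.1 a = x s a := by rw [hx a haM, origin_of_part hPa hmin hPa]
      have h4 : x e.1 j = x s a := by rw [hx j hjM, origin_of_part hPa hmin hPj']
      have h5 : x s a = x (r * h) a := by
        rcases le_or_gt ((r : ℝ) * h) s with h6 | h6
        · apply hD.rest a (r * h) s hr0 h6
          intro e' h7 h8 h9
          by_contra h10
          have h11 : e' = e := Set.encard_le_one_iff.1 hcell _ _
            ⟨h7, h8, by linarith, numPart_pos han (by omega)⟩ ⟨he, hes, het, hep⟩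
          subst h11
          linarith
        · symm
          apply hD.rest a s (r * h) hs0 h6.le
          intro e' h7 h8 h9
          by_contra h10
          have h11 : 2 ≤ numPart e' M := le_trans (by omega) (numPart_mono e' haM)
          have h12 : e' ≠ e := by
            rintro rfl
            linarith
          have h13 := hsle e' ⟨h7, by linarith, by linarith, h11⟩ h12
          linarith
      have h6 : x (r * h) a = y := (hc a han).2 rfl
      exact hja' (hu e.1 he0.le j a (by rw [h4, h5, h6]) (by rw [h3, h5, h6]))
    unfold lsts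
    refine ⟨hnl, ?_⟩
    apply ih (r + 1) (pos κ a) (by omega)
    intro i hi
    have h3 := hD.step hr0 hstep hcell hi
    rw [← hκ] at h3
    push_cast
    rw [h3, hc _ (lt_of_le_of_lt (anc_le κ i) hi)]
    exact anc_eq_iff hnl i

/-- Module PATH: if the type of level `a` is never carried by two levels, the followed individual
is never the parent on a good grid. -/
theorem hPATH : hPATH := by
  intro A x hD hA hinf n m h hh hG a hinj hu
  rw [lst_eq]
  apply aux hD hA hinf hh hG (x 0 a) hu m 0 a (by omega)
  intro i _
  rw [Nat.cast_zero, zero_mul]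
  constructor
  · exact hinj i
  · rintro rfl
    rfl

end Pool.Agent.Helper81.EV
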